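import Mathlib
import Pool.Agent.W277.UH.F1

/-!
# Project AL, part CYC: cycles of prime length

A rational map of degree `d ≥ 2` over an algebraically closed field of characteristic `0` has a cycle of
length `l` for every prime `l` with at most `d + 1` exceptions.  The point `∞` is moved to a point `a` which
is not periodic; `t = 1 / (z - a)` is the coordinate and `[A_n (t) : B_n (t)]` are homogeneous coordinates
of `f^n (a + 1 / t)`.
-/

set_option autoImplicit false

namespace Pool.Agent.X121.AL

open Finset Polynomial Pool.Agent.W277.UH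

universe u

noncomputable section

/-! ### forms -/

/-- the form `∑ F_i a^i b^(d-i)` over a `K`-algebra -/
def H {K A : Type*} [CommSemiring K] [CommSemiring A] [Algebra K A] (d : ℕ) (F : K[X]) (a b : A) :
    A :=
  ∑ i ∈ range (d + 1), algebraMap K A (F.coeff i) * a ^ i * b ^ (d - i)

lemma H_map {K A B : Type*} [CommSemiring K] [CommSemiring A] [Algebra K A] [CommSemiring B]
    [Algebra K B] (φ : A →ₐ[K] B) (d : ℕ) (F : K[X]) (a b : A) :
    φ (H d F a b) = H d F (φ a) (φ b) := by
  rw [H, H, map_sum]
  refine Finset.sum_congr rfl fun i _ => ?_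
  rw [map_mul, map_mul, map_pow, map_pow, AlgHom.commutes]

lemma H_scale {K A : Type*} [CommSemiring K] [CommSemiring A] [Algebra K A] (d : ℕ) (F : K[X])
    (c a b : A) : H d F (c * a) (c * b) = c ^ d * H d F a b := by
  rw [H, H, Finset.mul_sum]
  refine Finset.sum_congr rfl fun i hi => ?_
  have hi' : i ≤ d := by
    have := Finset.mem_range.1 hi
    omega
  have h1 : c ^ d = c ^ i * c ^ (d - i) := by
    rw [← pow_add]
    congr 1
    omega
  rw [mul_pow, mul_pow, h1]
  ring

lemma H_one {K A : Type*} [CommSemiring K] [CommSemiring A] [Algebra K A] (d : ℕ) (F : K[X])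
    (hF : F.natDegree ≤ d) (w : A) : H d F w 1 = aeval w F := by
  rw [H, aeval_eq_sum_range' (Nat.lt_succ_of_le hF)]
  refine Finset.sum_congr rfl fun i _ => ?_
  rw [one_pow, mul_one, Algebra.smul_def]

lemma H_zero {K A : Type*} [CommSemiring K] [CommSemiring A] [Algebra K A] (d : ℕ) (F : K[X])
    (a : A) : H d F a 0 = algebraMap K A (F.coeff d) * a ^ d := by
  rw [H, Finset.sum_range_succ, Nat.sub_self, pow_zero, mul_one, Finset.sum_eq_zero, zero_add]
  intro i hi
  have := Finset.mem_range.1 hi
  rw [zero_pow (by omega), mul_zero]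

section

variable {K : Type u} [Field K]

lemma H_div (d : ℕ) (F : K[X]) (hF : F.natDegree ≤ d) (a b : K) (hb : b ≠ 0) :
    H d F a b = b ^ d * F.eval (a / b) := by
  have h1 : H d F a b = H d F (b * (a / b)) (b * 1) := by
    rw [mul_div_cancel₀ _ hb, mul_one]
  rw [h1, H_scale, H_one d F hF, coe_aeval_eq_eval]

/-- the pair is coprime of degree `d` -/
structure Pr (d : ℕ) (p q : K[X]) : Prop where
  pd : p.natDegree ≤ d
  qd : q.natDegree ≤ d
  nz : ∀ a b : K, (a ≠ 0 ∨ b ≠ 0) → (H d p a b ≠ 0 ∨ H d q a b ≠ 0)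

lemma Pr.of {d : ℕ} (hd : 1 ≤ d) {p q : K[X]} (hc : IsCoprime p q)
    (hm : max p.natDegree q.natDegree = d) : Pr d p q := by
  have hp : p.natDegree ≤ d := hm ▸ le_max_left _ _
  have hq : q.natDegree ≤ d := hm ▸ le_max_right _ _
  refine ⟨hp, hq, fun a b hab => ?_⟩
  by_contra hcon
  rw [not_or, not_not, not_not] at hcon
  obtain ⟨h1, h2⟩ := hcon
  by_cases hb : b = 0
  · subst hb
    have ha : a ≠ 0 := by
      rcases hab with h | h
      · exact h
      · exact absurd rfl h
    rw [H_zero] at h1 h2
    have h3 : p.coeff d = 0 := by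
      rcases mul_eq_zero.1 h1 with h | h
      · exact h
      · exact absurd h (pow_ne_zero _ ha)
    have h4 : q.coeff d = 0 := by
      rcases mul_eq_zero.1 h2 with h | h
      · exact h
      · exact absurd h (pow_ne_zero _ ha)
    rcases max_choice p.natDegree q.natDegree with h | h
    · rw [h] at hm
      rw [← hm] at h3
      have := leadingCoeff_eq_zero.1 h3
      rw [this, natDegree_zero] at hm
      omega
    · rw [h] at hm
      rw [← hm] at h4
      have := leadingCoeff_eq_zero.1 h4
      rw [this, natDegree_zero] at hm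
      omega
  · rw [H_div d p hp a b hb] at h1
    rw [H_div d q hq a b hb] at h2
    have h3 : p.eval (a / b) = 0 := (mul_eq_zero.1 h1).resolve_left (pow_ne_zero _ hb)
    have h4 : q.eval (a / b) = 0 := (mul_eq_zero.1 h2).resolve_left (pow_ne_zero _ hb)
    obtain ⟨x, y, hxy⟩ := hc
    have h5 := congrArg (eval (a / b)) hxy
    rw [eval_add, eval_mul, eval_mul, h3, h4, mul_zero, mul_zero, add_zero, eval_one] at h5
    exact zero_ne_one h5

/-- the point with homogeneous coordinates `[a : b]` -/
def pt (a b : K) : Option K := by classical exact if b = 0 then none else some (a / b)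

lemma pt_zero (a : K) : pt a 0 = none := by
  unfold pt
  exact if_pos rfl

lemma pt_ne (a b : K) (h : b ≠ 0) : pt a b = some (a / b) := by
  unfold pt
  exact if_neg h

lemma pt_eq_iff {a b a' b' : K} (h : a ≠ 0 ∨ b ≠ 0) (h' : a' ≠ 0 ∨ b' ≠ 0) :
    pt a b = pt a' b' ↔ a * b' = a' * b := by
  by_cases hb : b = 0
  · subst hb
    have ha : a ≠ 0 := by
      rcases h with h | h
      · exact h
      · exact absurd rfl h
    rw [pt_zero, mul_zero]
    by_cases hb' : b' = 0
    · subst hb'
      rw [pt_zero]
      simp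
    · rw [pt_ne _ _ hb']
      simp [ha, hb']
  · rw [pt_ne _ _ hb]
    by_cases hb' : b' = 0
    · subst hb'
      have ha' : a' ≠ 0 := by
        rcases h' with h | h
        · exact h
        · exact absurd rfl h
      rw [pt_zero]
      simp [ha', hb]
    · rw [pt_ne _ _ hb', Option.some_inj, div_eq_div_iff hb hb']

lemma ratP1_pt {d : ℕ} {p q : K[X]} (h : Pr d p q) {a b : K} (hab : a ≠ 0 ∨ b ≠ 0) :
    ratP1 p q d (pt a b) = pt (H d p a b) (H d q a b) := by
  by_cases hb : b = 0
  · subst hb
    have ha : a ≠ 0 := by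
      rcases hab with h | h
      · exact h
      · exact absurd rfl h
    rw [pt_zero, H_zero, H_zero]
    by_cases h0 : q.coeff d = 0
    · rw [ratP1_none0 _ _ _ h0, h0, map_zero, zero_mul, pt_zero]
    · have e : pt ((algebraMap K K) (p.coeff d) * a ^ d) ((algebraMap K K) (q.coeff d) * a ^ d) =
          pt (p.coeff d * a ^ d) (q.coeff d * a ^ d) := rfl
      rw [ratP1_none _ _ _ h0, e, pt_ne _ _ (mul_ne_zero h0 (pow_ne_zero _ ha))]
      congr 1
      exact (mul_div_mul_right _ _ (pow_ne_zero _ ha)).symm
  · rw [pt_ne _ _ hb, H_div d p h.pd a b hb, H_div d q h.qd a b hb]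
    by_cases h0 : q.eval (a / b) = 0
    · rw [ratP1_some0 _ _ _ _ h0, h0, mul_zero, pt_zero]
    · rw [ratP1_some _ _ _ _ h0, pt_ne _ _ (mul_ne_zero (pow_ne_zero _ hb) h0)]
      congr 1
      exact (mul_div_mul_left _ _ (pow_ne_zero _ hb)).symm

/-! ### the iterates in the coordinate `t = 1 / (z - a)` -/

/-- homogeneous coordinates of `f^n (a + 1 / t)` -/
def sq (d : ℕ) (p q : K[X]) (a : K) : ℕ → K[X] × K[X]
  | 0 => (C a * X + 1, X)
  | n + 1 => (H d p (sq d p q a n).1 (sq d p q a n).2, H d q (sq d p q a n).1 (sq d p q a n).2)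

lemma sq_eval {d : ℕ} {p q : K[X]} (h : Pr d p q) (a t : K) (n : ℕ) :
    ((sq d p q a n).1.eval t ≠ 0 ∨ (sq d p q a n).2.eval t ≠ 0) ∧
    (ratP1 p q d)^[n] (pt (a * t + 1) t) =
      pt ((sq d p q a n).1.eval t) ((sq d p q a n).2.eval t) := by
  induction n with
  | zero =>
    constructor
    · by_cases ht : t = 0
      · left
        simp [sq, ht]
      · right
        simpa [sq] using ht
    · simp [sq]
  | succ n ih =>
    have h1 : (sq d p q a (n + 1)).1.eval t =
        H d p ((sq d p q a n).1.eval t) ((sq d p q a n).2.eval t) := by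
      have := H_map (aeval t : K[X] →ₐ[K] K) d p (sq d p q a n).1 (sq d p q a n).2
      rw [coe_aeval_eq_eval] at this
      exact this
    have h2 : (sq d p q a (n + 1)).2.eval t =
        H d q ((sq d p q a n).1.eval t) ((sq d p q a n).2.eval t) := by
      have := H_map (aeval t : K[X] →ₐ[K] K) d q (sq d p q a n).1 (sq d p q a n).2
      rw [coe_aeval_eq_eval] at this
      exact this
    rw [h1, h2]
    refine ⟨h.nz _ _ ih.1, ?_⟩
    rw [Function.iterate_succ_apply', ih.2, ratP1_pt h ih.1]

lemma H_deg (d m : ℕ) (F A B : K[X]) (hA : A.natDegree ≤ m) (hB : B.natDegree ≤ m) :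
    (H d F A B).natDegree ≤ m * d ∧
      (H d F A B).coeff (m * d) = H d F (A.coeff m) (B.coeff m) := by
  have h0 : ∀ i ∈ range (d + 1), (C (F.coeff i) * A ^ i * B ^ (d - i)).natDegree ≤ m * d ∧
      (C (F.coeff i) * A ^ i * B ^ (d - i)).coeff (m * d) =
        F.coeff i * A.coeff m ^ i * B.coeff m ^ (d - i) := by
    intro i hi
    have hi' : i ≤ d := by
      have := Finset.mem_range.1 hi
      omega
    have e : m * d = m * i + m * (d - i) := by
      rw [← mul_add]
      congr 1
      omega
    have g1 : (A ^ i).natDegree ≤ m * i := by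
      refine natDegree_pow_le.trans ?_
      rw [mul_comm]
      exact Nat.mul_le_mul_right _ hA
    have g2 : (B ^ (d - i)).natDegree ≤ m * (d - i) := by
      refine natDegree_pow_le.trans ?_
      rw [mul_comm]
      exact Nat.mul_le_mul_right _ hB
    have g3 : (C (F.coeff i) * A ^ i).natDegree ≤ m * i := (natDegree_C_mul_le _ _).trans g1
    refine ⟨?_, ?_⟩
    · rw [e]
      exact natDegree_mul_le.trans (add_le_add g3 g2)
    · rw [e, coeff_mul_add_eq_of_natDegree_le g3 g2, coeff_C_mul]
      have c1 : (A ^ i).coeff (m * i) = A.coeff m ^ i := by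
        rw [mul_comm m i]
        exact coeff_pow_of_natDegree_le hA
      have c2 : (B ^ (d - i)).coeff (m * (d - i)) = B.coeff m ^ (d - i) := by
        rw [mul_comm m (d - i)]
        exact coeff_pow_of_natDegree_le hB
      rw [c1, c2]
  constructor
  · refine natDegree_sum_le_of_forall_le _ _ fun i hi => ?_
    exact (h0 i hi).1
  · rw [H, H, finsetSum_coeff]
    refine Finset.sum_congr rfl fun i hi => ?_
    exact (h0 i hi).2

lemma sq_deg {d : ℕ} {p q : K[X]} (h : Pr d p q) (a : K) (n : ℕ) :
    (sq d p q a n).1.natDegree ≤ d ^ n ∧ (sq d p q a n).2.natDegree ≤ d ^ n ∧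
    ((sq d p q a n).1.coeff (d ^ n) ≠ 0 ∨ (sq d p q a n).2.coeff (d ^ n) ≠ 0) ∧
    (ratP1 p q d)^[n] (some a) =
      pt ((sq d p q a n).1.coeff (d ^ n)) ((sq d p q a n).2.coeff (d ^ n)) := by
  induction n with
  | zero =>
    refine ⟨?_, ?_, Or.inr ?_, ?_⟩
    · simp only [sq, pow_zero]
      compute_degree
    · simp [sq]
    · simp [sq]
    · simp only [sq, pow_zero, Function.iterate_zero, id]
      rw [pt_ne _ _ (by simp)]
      simp [coeff_X, coeff_one]
  | succ n ih =>
    obtain ⟨h1, h2, h3, h4⟩ := ih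
    have e1 := H_deg d (d ^ n) p _ _ h1 h2
    have e2 := H_deg d (d ^ n) q _ _ h1 h2
    rw [← pow_succ] at e1 e2
    refine ⟨e1.1, e2.1, ?_, ?_⟩
    · show (H d p (sq d p q a n).1 (sq d p q a n).2).coeff (d ^ (n + 1)) ≠ 0 ∨
        (H d q (sq d p q a n).1 (sq d p q a n).2).coeff (d ^ (n + 1)) ≠ 0
      rw [e1.2, e2.2]
      exact h.nz _ _ h3
    · rw [Function.iterate_succ_apply', h4, ratP1_pt h h3]
      show _ = pt ((H d p (sq d p q a n).1 (sq d p q a n).2).coeff (d ^ (n + 1)))
        ((H d q (sq d p q a n).1 (sq d p q a n).2).coeff (d ^ (n + 1)))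
      rw [e1.2, e2.2]

/-- the polynomial of the fixed points of `f^n` -/
def Ps (d : ℕ) (p q : K[X]) (a : K) (n : ℕ) : K[X] :=
  X * (sq d p q a n).1 - (C a * X + 1) * (sq d p q a n).2

lemma Ps_deg {d : ℕ} {p q : K[X]} (h : Pr d p q) (a : K) (n : ℕ)
    (ha : (ratP1 p q d)^[n] (some a) ≠ some a) : (Ps d p q a n).natDegree = d ^ n + 1 := by
  obtain ⟨h1, h2, h3, h4⟩ := sq_deg h a n
  have hc : (Ps d p q a n).coeff (d ^ n + 1) =
      (sq d p q a n).1.coeff (d ^ n) - a * (sq d p q a n).2.coeff (d ^ n) := by
    rw [Ps, coeff_sub, coeff_X_mul]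
    congr 1
    have g : (C a * X + 1 : K[X]).natDegree ≤ 1 := by compute_degree
    rw [add_comm (d ^ n) 1, coeff_mul_add_eq_of_natDegree_le g h2]
    simp [coeff_one]
  have hle : (Ps d p q a n).natDegree ≤ d ^ n + 1 := by
    refine (natDegree_sub_le _ _).trans (max_le ?_ ?_)
    · refine natDegree_mul_le.trans ?_
      have : (X : K[X]).natDegree ≤ 1 := natDegree_X_le
      omega
    · refine natDegree_mul_le.trans ?_
      have : (C a * X + 1 : K[X]).natDegree ≤ 1 := by compute_degree
      omega
  refine le_antisymm hle (le_natDegree_of_ne_zero ?_)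
  rw [hc]
  intro h0
  apply ha
  have e : (some a : Option K) = pt a 1 := by
    rw [pt_ne _ _ one_ne_zero, div_one]
  rw [h4, e, pt_eq_iff h3 (Or.inr one_ne_zero), mul_one]
  linear_combination h0

lemma Ps_root {d : ℕ} {p q : K[X]} (h : Pr d p q) (a t : K) (n : ℕ) :
    (Ps d p q a n).eval t = 0 ↔ (ratP1 p q d)^[n] (pt (a * t + 1) t) = pt (a * t + 1) t := by
  obtain ⟨h1, h2⟩ := sq_eval h a t n
  have h3 := (sq_eval h a t 0).1
  have e1 : (sq d p q a 0).1.eval t = a * t + 1 := by simp [sq]
  have e2 : (sq d p q a 0).2.eval t = t := by simp [sq]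
  rw [e1, e2] at h3
  rw [h2, pt_eq_iff h1 h3, Ps, eval_sub, eval_mul, eval_mul, eval_add, eval_mul, eval_C, eval_X,
    eval_one, sub_eq_zero, mul_comm t]

/-! ### the multiplicity -/

lemma cc_aeval (w : PowerSeries K) (F : K[X]) :
    PowerSeries.constantCoeff (aeval w F) = F.eval (PowerSeries.constantCoeff w) := by
  rw [aeval_def, hom_eval₂]
  have : (PowerSeries.constantCoeff (R := K)).comp (algebraMap K (PowerSeries K)) =
      RingHom.id K := by
    ext x
    simp
  rw [this]
  rfl

/-- numerator and denominator in the new coordinate -/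
def nn (d : ℕ) (p q : K[X]) (a : K) (n : ℕ) : K[X] :=
  (sq d p q a n).1 - C a * (sq d p q a n).2

/-- the coefficients -/
def cc (m : ℕ) (c : K) : ℕ → K
  | 0 => 0
  | n + 1 => cc m c n + (1 + 0 ^ (m - 1) * cc m c n) ^ m * c

lemma cc_one (c : K) (n : ℕ) : 1 + cc 1 c n = (1 + c) ^ n := by
  induction n with
  | zero => simp [cc]
  | succ n ih =>
    rw [pow_succ, ← ih]
    simp only [cc, Nat.sub_self, pow_zero, one_mul, pow_one]
    ring

lemma cc_two (m : ℕ) (hm : 2 ≤ m) (c : K) (n : ℕ) : cc m c n = n * c := by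
  induction n with
  | zero => simp [cc]
  | succ n ih =>
    simp only [cc]
    rw [ih, zero_pow (by omega), zero_mul, add_zero, one_pow, one_mul]
    push_cast
    ring

lemma loc {d : ℕ} {p q : K[X]} (a t : K) (m : ℕ) (hm : 1 ≤ m)
    (h : K[X]) (hh : (sq d p q a 1).2 - X * nn d p q a 1 = (X - C t) ^ m * h)
    (hq : (nn d p q a 1).eval t ≠ 0) (n : ℕ) :
    ∃ w g : PowerSeries K,
      aeval (PowerSeries.C t + PowerSeries.X : PowerSeries K) (sq d p q a n).2 =
        aeval (PowerSeries.C t + PowerSeries.X : PowerSeries K) (nn d p q a n) * w ∧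
      PowerSeries.constantCoeff
        (aeval (PowerSeries.C t + PowerSeries.X : PowerSeries K) (nn d p q a n)) ≠ 0 ∧
      w = PowerSeries.C t + PowerSeries.X + PowerSeries.X ^ m * g ∧
      PowerSeries.constantCoeff g = cc m (h.eval t / (nn d p q a 1).eval t) n := by
  set T : PowerSeries K := PowerSeries.C t + PowerSeries.X with hT
  induction n with
  | zero =>
    refine ⟨T, 0, ?_, ?_, ?_, ?_⟩
    · simp [nn, sq]
    · simp [nn, sq]
    · simp
    · simp [cc]
  | succ n ih =>
    obtain ⟨w, g, h1, h2, h3, h4⟩ := ih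
    have hw0 : PowerSeries.constantCoeff w = t := by
      rw [h3]
      simp [hT, zero_pow (by omega : m ≠ 0)]
    -- numerator and denominator at `w`
    have hA : ∀ F : K[X], aeval w (H d F (C a * X + 1) X : K[X]) =
        H d F (algebraMap K _ a * w + 1) w := by
      intro F
      rw [H_map (aeval w : K[X] →ₐ[K] PowerSeries K)]
      simp
    have hA1 : aeval T (sq d p q a n).1 =
        aeval T (nn d p q a n) * (algebraMap K (PowerSeries K) a * w + 1) := by
      have : (sq d p q a n).1 = nn d p q a n + C a * (sq d p q a n).2 := by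
        rw [nn]
        ring
      rw [this, map_add, map_mul, h1, aeval_C]
      ring
    have hS : ∀ F : K[X], aeval T (H d F (sq d p q a n).1 (sq d p q a n).2) =
        aeval T (nn d p q a n) ^ d * aeval w (H d F (C a * X + 1) X : K[X]) := by
      intro F
      rw [H_map (aeval T : K[X] →ₐ[K] PowerSeries K), hA1, h1, H_scale, hA]
    have hB : aeval T (sq d p q a (n + 1)).2 =
        aeval T (nn d p q a n) ^ d * aeval w (sq d p q a 1).2 := hS q
    have hN : aeval T (nn d p q a (n + 1)) =
        aeval T (nn d p q a n) ^ d * aeval w (nn d p q a 1) := by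
      have e1 : aeval T (nn d p q a (n + 1)) =
          aeval T (H d p (sq d p q a n).1 (sq d p q a n).2) - algebraMap K _ a *
            aeval T (H d q (sq d p q a n).1 (sq d p q a n).2) := by
        rw [nn, map_sub, map_mul, aeval_C]
        rfl
      have e2 : aeval w (nn d p q a 1) =
          aeval w (H d p (C a * X + 1) X : K[X]) - algebraMap K _ a *
            aeval w (H d q (C a * X + 1) X : K[X]) := by
        rw [nn, map_sub, map_mul, aeval_C]
        rfl
      rw [e1, e2, hS, hS]
      ring
    have hcq : PowerSeries.constantCoeff (aeval w (nn d p q a 1)) ≠ 0 := by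
      rw [cc_aeval, hw0]
      exact hq
    set D : PowerSeries K := aeval w (nn d p q a 1) with hD
    have hDi : D * D⁻¹ = 1 := PowerSeries.mul_inv_cancel D hcq
    have hw : aeval w (sq d p q a 1).2 = w * D + (w - PowerSeries.C t) ^ m * aeval w h := by
      have := congrArg (aeval w) hh
      rw [map_sub, map_mul, map_mul, map_pow, map_sub, aeval_X, aeval_C] at this
      have e : (algebraMap K (PowerSeries K) t) = PowerSeries.C t := rfl
      rw [e] at this
      linear_combination this
    have hwt : w - PowerSeries.C t = PowerSeries.X * (1 + PowerSeries.X ^ (m - 1) * g) := by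
      have e : (PowerSeries.X : PowerSeries K) ^ m = PowerSeries.X * PowerSeries.X ^ (m - 1) := by
        rw [← pow_succ']
        congr 1
        omega
      rw [h3, hT, e]
      ring
    refine ⟨aeval w (sq d p q a 1).2 * D⁻¹,
      g + (1 + PowerSeries.X ^ (m - 1) * g) ^ m * aeval w h * D⁻¹, ?_, ?_, ?_, ?_⟩
    · rw [hB, hN]
      linear_combination (-(aeval T (nn d p q a n) ^ d * aeval w (sq d p q a 1).2)) * hDi
    · rw [hN, map_mul, map_pow]
      exact mul_ne_zero (pow_ne_zero _ h2) hcq
    · rw [hw, hwt, mul_pow]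
      have e : w = T + PowerSeries.X ^ m * g := h3
      linear_combination w * hDi + e
    · rw [map_add, map_mul, map_mul, map_pow, map_add, map_mul, map_pow, PowerSeries.constantCoeff_X,
        cc_aeval, hw0, map_one, h4]
      have e : PowerSeries.constantCoeff D⁻¹ = ((nn d p q a 1).eval t)⁻¹ := by
        rw [PowerSeries.constantCoeff_inv, hD, cc_aeval, hw0]
      rw [e]
      simp only [cc]
      ring

lemma mult_le {d : ℕ} {p q : K[X]} (a t : K) (m : ℕ) (hm : 1 ≤ m)
    (h : K[X]) (hh : (sq d p q a 1).2 - X * nn d p q a 1 = (X - C t) ^ m * h)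
    (hq : (nn d p q a 1).eval t ≠ 0) (n : ℕ) (h0 : Ps d p q a n ≠ 0)
    (hc : cc m (h.eval t / (nn d p q a 1).eval t) n ≠ 0) :
    (Ps d p q a n).rootMultiplicity t ≤ m := by
  obtain ⟨w, g, h1, h2, h3, h4⟩ := loc a t m hm h hh hq n
  set T : PowerSeries K := PowerSeries.C t + PowerSeries.X with hT
  rw [rootMultiplicity_le_iff h0]
  rintro ⟨G, hG⟩
  have e1 : Ps d p q a n = X * nn d p q a n - (sq d p q a n).2 := by
    rw [Ps, nn]
    ring
  have e2 : aeval T (Ps d p q a n) =
      - (PowerSeries.X ^ m * (aeval T (nn d p q a n) * g)) := by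
    rw [e1, map_sub, map_mul, aeval_X, h1, h3]
    ring
  have e3 : aeval T (Ps d p q a n) = PowerSeries.X ^ (m + 1) * aeval T G := by
    rw [hG, map_mul, map_pow, map_sub, aeval_X, aeval_C]
    congr 2
    rw [hT]
    show PowerSeries.C t + PowerSeries.X - PowerSeries.C t = PowerSeries.X
    ring
  have e4 : PowerSeries.X ^ m * (aeval T (nn d p q a n) * g + PowerSeries.X * aeval T G) =
      (0 : PowerSeries K) := by
    rw [e3] at e2
    rw [pow_succ] at e2
    linear_combination e2
  have e5 : aeval T (nn d p q a n) * g + PowerSeries.X * aeval T G = (0 : PowerSeries K) :=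
    (mul_eq_zero.1 e4).resolve_left (pow_ne_zero _ PowerSeries.X_ne_zero)
  have e6 := congrArg PowerSeries.constantCoeff e5
  rw [map_add, map_mul, map_mul, PowerSeries.constantCoeff_X, zero_mul, add_zero, map_zero,
    h4] at e6
  exact mul_ne_zero h2 hc e6


/-! ### a point which is not periodic -/

lemma wr_ne [CharZero K] {d : ℕ} (hd : 1 ≤ d) {p q : K[X]} (hc : IsCoprime p q)
    (hm : max p.natDegree q.natDegree = d) : derivative p * q - p * derivative q ≠ 0 := by
  intro h0
  have h1 : p ∣ derivative p := by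
    have : p ∣ derivative p * q := ⟨derivative q, by linear_combination h0⟩
    exact hc.dvd_of_dvd_mul_right this
  have h2 : q ∣ derivative q := by
    have : q ∣ p * derivative q := ⟨derivative p, by linear_combination -h0⟩
    exact hc.symm.dvd_of_dvd_mul_left this
  have h3 : ∀ r : K[X], r ∣ derivative r → r.natDegree = 0 := by
    intro r hr
    by_contra hne
    have h4 : derivative r ≠ 0 := by
      intro h5
      exact hne (derivative_eq_zero.1 h5)
    have h6 := natDegree_le_of_dvd hr h4
    have h7 := natDegree_derivative_lt hne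
    omega
  rw [h3 p h1, h3 q h2] at hm
  simp at hm
  omega

lemma exists_nonperiodic [CharZero K] [IsAlgClosed K] {d : ℕ} (hd : 2 ≤ d) {p q : K[X]}
    (hc : IsCoprime p q) (hm : max p.natDegree q.natDegree = d) :
    ∃ a : K, ∀ n : ℕ, 1 ≤ n → (ratP1 p q d)^[n] (some a) ≠ some a := by
  classical
  have hW := wr_ne (by omega : 1 ≤ d) hc hm
  set W : K[X] := derivative p * q - p * derivative q with hWdef
  -- a good value
  obtain ⟨y, hy⟩ : ∃ y : K, y ∉ (insert (p.coeff d / q.coeff d)
      (W.roots.toFinset.image fun c => p.eval c / q.eval c) : Finset K) :=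
    Infinite.exists_notMem_finset _
  rw [Finset.mem_insert, not_or] at hy
  obtain ⟨hy1, hy2⟩ := hy
  set F : K[X] := p - C y * q with hF
  have hFd : d ≤ F.natDegree := by
    refine le_natDegree_of_ne_zero ?_
    rw [hF, coeff_sub, coeff_C_mul]
    intro h0
    by_cases hq : q.coeff d = 0
    · rw [hq, mul_zero, sub_zero] at h0
      rcases max_choice p.natDegree q.natDegree with h | h
      · rw [h] at hm
        rw [← hm] at h0
        have := leadingCoeff_eq_zero.1 h0
        rw [this, natDegree_zero] at hm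
        omega
      · rw [h] at hm
        rw [← hm] at hq
        have := leadingCoeff_eq_zero.1 hq
        rw [this, natDegree_zero] at hm
        omega
    · apply hy1
      rw [eq_div_iff hq]
      linear_combination -h0
  have hF0 : F ≠ 0 := by
    intro h0
    rw [h0, natDegree_zero] at hFd
    omega
  have hqr : ∀ c, F.eval c = 0 → q.eval c ≠ 0 := by
    intro c hcF h0
    have h1 : p.eval c = 0 := by
      rw [hF, eval_sub, eval_mul, h0, mul_zero, sub_zero] at hcF
      exact hcF
    obtain ⟨u, v, huv⟩ := hc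
    have h5 := congrArg (eval c) huv
    rw [eval_add, eval_mul, eval_mul, h1, h0, mul_zero, mul_zero, add_zero, eval_one] at h5
    exact zero_ne_one h5
  have hval : ∀ c, F.eval c = 0 → ratP1 p q d (some c) = some y := by
    intro c hcF
    rw [ratP1_some _ _ _ _ (hqr c hcF)]
    congr 1
    rw [div_eq_iff (hqr c hcF)]
    rw [hF, eval_sub, eval_mul, eval_C] at hcF
    linear_combination hcF
  obtain ⟨c, hcr⟩ := IsAlgClosed.exists_root F (by
    intro h0
    have h9 : F.natDegree = 0 := natDegree_eq_of_degree_eq_some h0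
    omega)
  obtain ⟨G, hG⟩ := dvd_iff_isRoot.2 hcr
  have hG0 : G ≠ 0 := by
    rintro rfl
    rw [mul_zero] at hG
    exact hF0 hG
  have hGd : 1 ≤ G.natDegree := by
    rw [hG, natDegree_mul (X_sub_C_ne_zero c) hG0, natDegree_X_sub_C] at hFd
    omega
  obtain ⟨c', hcr'⟩ := IsAlgClosed.exists_root G (by
    intro h0
    have h9 : G.natDegree = 0 := natDegree_eq_of_degree_eq_some h0
    omega)
  have hcF : F.eval c = 0 := hcr
  have hcF' : F.eval c' = 0 := by
    rw [hG, eval_mul, (hcr' : G.eval c' = 0), mul_zero]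
  have hne : c ≠ c' := by
    rintro rfl
    apply hy2
    rw [Finset.mem_image]
    refine ⟨c, ?_, ?_⟩
    · rw [Multiset.mem_toFinset, mem_roots hW]
      have h1 : (derivative F).eval c = 0 := by
        rw [hG, derivative_mul, eval_add, eval_mul, eval_mul, (hcr' : G.eval c = 0), mul_zero,
          zero_add, eval_sub, eval_X, eval_C, sub_self, zero_mul]
      rw [hF, derivative_sub, derivative_C_mul, eval_sub, eval_mul, eval_C] at h1
      rw [hF, eval_sub, eval_mul, eval_C] at hcF
      show W.eval c = 0
      rw [hWdef, eval_sub, eval_mul, eval_mul]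
      linear_combination (q.eval c) * h1 - ((derivative q).eval c) * hcF
    · rw [div_eq_iff (hqr c hcF)]
      rw [hF, eval_sub, eval_mul, eval_C] at hcF
      linear_combination hcF
  -- at most one of the two points is periodic
  by_contra hcon
  push Not at hcon
  obtain ⟨n, hn, h1⟩ := hcon c
  obtain ⟨m, hm', h2⟩ := hcon c'
  set f := ratP1 p q d with hf
  have h3 : f^[n * m] (some c) = some c := by
    have : Function.IsPeriodicPt f n (some c) := h1
    exact this.mul_const m
  have h4 : f^[n * m] (some c') = some c' := by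
    have : Function.IsPeriodicPt f m (some c') := h2
    exact this.const_mul n
  obtain ⟨N, hN⟩ : ∃ N, n * m = N + 1 := ⟨n * m - 1, by
    have := Nat.mul_pos (by omega : 0 < n) (by omega : 0 < m)
    omega⟩
  rw [hN, Function.iterate_succ_apply, hval c hcF] at h3
  rw [hN, Function.iterate_succ_apply, hval c' hcF'] at h4
  exact hne (Option.some_inj.1 (h3.symm.trans h4))

/-! ### the theorem -/

theorem cyc (K : Type u) [Field K] [CharZero K] [IsAlgClosed K] (d : ℕ) (hd : 2 ≤ d)
    (p q : K[X]) (hc : IsCoprime p q) (hm : max p.natDegree q.natDegree = d) :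
    ∃ S : Finset ℕ, S.card ≤ d + 1 ∧ ∀ l : ℕ, l.Prime → l ∉ S →
      ∃ z : Option K, (ratP1 p q d)^[l] z = z ∧ ratP1 p q d z ≠ z := by
  classical
  have hP : Pr d p q := Pr.of (by omega) hc hm
  obtain ⟨a, ha⟩ := exists_nonperiodic hd hc hm
  set Θ : K[X] := (sq d p q a 1).2 - X * nn d p q a 1 with hΘ
  have hΘP : Ps d p q a 1 = - Θ := by
    rw [hΘ, Ps, nn]
    ring
  have hd1 : (Ps d p q a 1).natDegree = d + 1 := by
    have := Ps_deg hP a 1 (ha 1 le_rfl)
    rwa [pow_one] at this
  have hP1 : Ps d p q a 1 ≠ 0 := by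
    intro h0
    rw [h0, natDegree_zero] at hd1
    omega
  refine ⟨(Ps d p q a 1).roots.toFinset.image fun t =>
    orderOf (1 + (derivative Θ).eval t / (nn d p q a 1).eval t), ?_, ?_⟩
  · refine Finset.card_image_le.trans ((Multiset.toFinset_card_le _).trans ?_)
    exact (card_roots' _).trans hd1.le
  intro l hl hlS
  by_contra hcon
  push Not at hcon
  have hdl : (Ps d p q a l).natDegree = d ^ l + 1 := Ps_deg hP a l (ha l hl.one_le)
  have hPl : Ps d p q a l ≠ 0 := by
    intro h0
    rw [h0, natDegree_zero] at hdl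
    omega
  have hle : (Ps d p q a l).roots ≤ (Ps d p q a 1).roots := by
    rw [Multiset.le_iff_count]
    intro t
    rw [count_roots, count_roots]
    by_cases ht : (Ps d p q a l).eval t = 0
    swap
    · rw [rootMultiplicity_eq_zero ht]
      exact Nat.zero_le _
    have h1 : (Ps d p q a 1).eval t = 0 := by
      rw [Ps_root hP, Function.iterate_one]
      exact hcon _ ((Ps_root hP a t l).1 ht)
    set m := (Ps d p q a 1).rootMultiplicity t with hmdef
    have hm1 : 1 ≤ m := (rootMultiplicity_pos hP1).2 h1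
    obtain ⟨h', hh', hht⟩ := exists_eq_pow_rootMultiplicity_mul_and_not_dvd (Ps d p q a 1) hP1 t
    rw [← hmdef] at hh'
    obtain ⟨h, hdef⟩ : ∃ h : K[X], h = -h' := ⟨_, rfl⟩
    have hh : Θ = (X - C t) ^ m * h := by
      rw [hdef]
      have e := hΘP.symm.trans hh'
      linear_combination -e
    have hh0 : h.eval t ≠ 0 := by
      intro h0
      rw [hdef, eval_neg, neg_eq_zero] at h0
      exact hht (dvd_iff_isRoot.2 h0)
    have hΘt : Θ.eval t = 0 := by
      have := congrArg (eval t) hΘP
      rw [h1, eval_neg] at this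
      exact neg_eq_zero.1 this.symm
    have hq : (nn d p q a 1).eval t ≠ 0 := by
      intro h0
      have e1 := (sq_eval hP a t 1).1
      rw [hΘ, eval_sub, eval_mul, h0, mul_zero, sub_zero] at hΘt
      rw [nn, eval_sub, eval_mul, hΘt, mul_zero, sub_zero] at h0
      rcases e1 with e | e
      · exact e h0
      · exact e hΘt
    refine mult_le a t m hm1 h hh hq l hPl ?_
    rcases Nat.eq_or_lt_of_le hm1 with h2 | h2
    · -- multiplicity one
      intro h0
      rw [← h2] at h0 hh
      have h3 := cc_one (h.eval t / (nn d p q a 1).eval t) l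
      rw [h0, add_zero] at h3
      have h4 : (derivative Θ).eval t = h.eval t := by
        rw [hh, pow_one, derivative_mul, eval_add, eval_mul, eval_mul, eval_sub, eval_X, eval_C,
          sub_self, zero_mul, add_zero, derivative_sub, derivative_X, derivative_C, sub_zero,
          eval_one, one_mul]
      have h5 := (orderOf_dvd_of_pow_eq_one h3.symm)
      rcases (Nat.dvd_prime hl).1 h5 with h6 | h6
      · rw [orderOf_eq_one_iff] at h6
        have h7 : h.eval t / (nn d p q a 1).eval t = 0 := by linear_combination h6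
        exact (div_ne_zero hh0 hq) h7
      · apply hlS
        rw [Finset.mem_image]
        refine ⟨t, ?_, ?_⟩
        · rw [Multiset.mem_toFinset, mem_roots hP1]
          exact h1
        · rw [h4]
          exact h6
    · rw [cc_two m h2]
      exact mul_ne_zero (Nat.cast_ne_zero.2 hl.ne_zero) (div_ne_zero hh0 hq)
  have hcard := Multiset.card_le_card hle
  have hs : Multiset.card (Ps d p q a l).roots = (Ps d p q a l).natDegree :=
    (splits_iff_card_roots.1 (IsAlgClosed.splits _))
  have h9 := card_roots' (Ps d p q a 1)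
  rw [hs, hdl] at hcard
  rw [hd1] at h9
  have h10 : d ^ 2 ≤ d ^ l := Nat.pow_le_pow_right (by omega) hl.two_le
  have h11 : d < d ^ 2 := by nlinarith
  omega

end

end

end Pool.Agent.X121.AL
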